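import Pool.Agent.U18.UB.Stm
import Pool.Agent.H212R2.KLS.T1
import Mathlib

/-!
Project UB (KLS for unconditional sums of many bodies), package BT: concentration of the
coordinates for the measure `Pt` (Prekopa-Leindler).
-/

set_option autoImplicit false

open MeasureTheory Set Filter Topology
open scoped ENNReal

namespace Pool.Agent.U312.UB

open Pool.Agent.U18.UB

variable {b : ℕ}

theorem box {D : Set (Fin b → ℝ)} (hD : UBd D) :
    ∃ r : ℝ, 0 < r ∧ ∀ s : Fin b → ℝ, (∀ i, |s i| ≤ r) → s ∈ D := by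
  obtain ⟨x, hx⟩ := hD.int
  rw [mem_interior_iff_mem_nhds, Metric.mem_nhds_iff] at hx
  obtain ⟨r, hr, hb⟩ := hx
  refine ⟨r / 2, by linarith, fun s hs => ?_⟩
  have hy : (fun i => if 0 ≤ x i then x i + r / 2 else x i - r / 2) ∈ D := by
    apply hb
    rw [Metric.mem_ball, dist_pi_lt_iff hr]
    intro i
    rw [Real.dist_eq]
    split_ifs
    · rw [add_sub_cancel_left, abs_of_pos (by linarith)]; linarith
    · rw [sub_sub_cancel_left, abs_neg, abs_of_pos (by linarith)]; linarith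
  refine hD.unc _ hy s (fun i => (hs i).trans ?_)
  split_ifs with h
  · rw [abs_of_nonneg (by linarith)]; linarith
  · rw [abs_of_neg (by linarith)]; linarith

theorem bdd {D : Set (Fin b → ℝ)} (hD : UBd D) :
    ∃ R : ℝ, 0 < R ∧ ∀ t ∈ D, ∀ i, |t i| ≤ R := by
  obtain ⟨R, hR⟩ := hD.comp.isBounded.exists_norm_le
  refine ⟨|R| + 1, by positivity, fun t ht i => ?_⟩
  have h1 := norm_le_pi_norm t i
  rw [Real.norm_eq_abs] at h1
  linarith [hR t ht, le_abs_self R]

theorem meas_set {D : Set (Fin b → ℝ)} (hD : UBd D) :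
    MeasurableSet {t : Fin b → ℝ | t ∈ D ∧ ∀ i, 0 ≤ t i} := by
  have h1 : {t : Fin b → ℝ | t ∈ D ∧ ∀ i, 0 ≤ t i} = D ∩ ⋂ i, {t : Fin b → ℝ | 0 ≤ t i} := by
    ext t; simp
  rw [h1]
  exact hD.comp.isClosed.measurableSet.inter
    (MeasurableSet.iInter fun i => measurableSet_le measurable_const (measurable_pi_apply i))

theorem wt_meas (m : Fin b → ℕ) {D : Set (Fin b → ℝ)} (hD : UBd D) : Measurable (wt m D) := by
  unfold wt
  refine Measurable.indicator ?_ (meas_set hD)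
  exact Finset.measurable_prod _ fun i _ => (measurable_pi_apply i).pow_const _

theorem wt_of {m : Fin b → ℕ} {D : Set (Fin b → ℝ)} {t : Fin b → ℝ} (h : t ∈ D)
    (h0 : ∀ i, 0 ≤ t i) : wt m D t = ∏ i, t i ^ (m i - 1) := by
  unfold wt
  rw [indicator_of_mem]
  exact ⟨h, h0⟩

theorem wt_not {m : Fin b → ℕ} {D : Set (Fin b → ℝ)} {t : Fin b → ℝ}
    (h : ¬ (t ∈ D ∧ ∀ i, 0 ≤ t i)) : wt m D t = 0 := by
  unfold wt
  exact indicator_of_notMem (s := {t | t ∈ D ∧ ∀ i, 0 ≤ t i}) h _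

theorem wt_nonneg (m : Fin b → ℕ) (D : Set (Fin b → ℝ)) (t : Fin b → ℝ) : 0 ≤ wt m D t := by
  by_cases h : t ∈ D ∧ ∀ i, 0 ≤ t i
  · rw [wt_of h.1 h.2]
    exact Finset.prod_nonneg fun i _ => pow_nonneg (h.2 i) _
  · rw [wt_not h]

/-- the total mass -/
noncomputable def Z (m : Fin b → ℕ) (D : Set (Fin b → ℝ)) : ℝ≥0∞ :=
  ∫⁻ t, ENNReal.ofReal (wt m D t)

theorem Z_pos (m : Fin b → ℕ) {D : Set (Fin b → ℝ)} (hD : UBd D) : Z m D ≠ 0 := by
  obtain ⟨r, hr, hbox⟩ := box hD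
  have h1 : 0 < ∫⁻ t, ENNReal.ofReal (wt m D t) := by
    rw [lintegral_pos_iff_support (wt_meas m hD).ennreal_ofReal]
    have hsub : Set.pi univ (fun _ : Fin b => Ioo (0:ℝ) r) ⊆
        Function.support fun t => ENNReal.ofReal (wt m D t) := by
      intro t ht
      have ht' : ∀ i, t i ∈ Ioo (0:ℝ) r := fun i => ht i (mem_univ i)
      rw [Function.mem_support]
      have : 0 < wt m D t := by
        rw [wt_of (hbox t fun i => by rw [abs_of_pos (ht' i).1]; exact (ht' i).2.le)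
          fun i => (ht' i).1.le]
        exact Finset.prod_pos fun i _ => pow_pos (ht' i).1 _
      simpa using this
    refine lt_of_lt_of_le ?_ (measure_mono hsub)
    rw [volume_pi_pi]
    simp only [Real.volume_Ioo, sub_zero]
    rw [Finset.prod_const]
    exact pos_iff_ne_zero.2 (pow_ne_zero _ (by simpa using hr))
  exact h1.ne'

theorem Z_top (m : Fin b → ℕ) {D : Set (Fin b → ℝ)} (hD : UBd D) : Z m D ≠ ⊤ := by
  obtain ⟨R, hR, hb⟩ := bdd hD
  have h1 : Z m D ≤ ∫⁻ t in D, ENNReal.ofReal (∏ i, R ^ (m i - 1)) := by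
    rw [← lintegral_indicator hD.comp.isClosed.measurableSet]
    apply lintegral_mono
    intro t
    by_cases h : t ∈ D ∧ ∀ i, 0 ≤ t i
    · rw [indicator_of_mem h.1]
      apply ENNReal.ofReal_le_ofReal
      rw [wt_of h.1 h.2]
      refine Finset.prod_le_prod (fun i _ => pow_nonneg (h.2 i) _) fun i _ => ?_
      exact pow_le_pow_left₀ (h.2 i) ((le_abs_self _).trans (hb t h.1 i)) _
    · show ENNReal.ofReal (wt m D t) ≤ _
      rw [wt_not h, ENNReal.ofReal_zero]
      exact zero_le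
  refine ne_top_of_le_ne_top ?_ h1
  rw [setLIntegral_const]
  exact ENNReal.mul_ne_top ENNReal.ofReal_ne_top hD.comp.measure_lt_top.ne

theorem Pt_apply (m : Fin b → ℕ) (D : Set (Fin b → ℝ)) {A : Set (Fin b → ℝ)}
    (hA : MeasurableSet A) :
    Pt m D A = (Z m D)⁻¹ * ∫⁻ t in A, ENNReal.ofReal (wt m D t) := by
  unfold Pt
  rw [Measure.smul_apply, withDensity_apply _ hA, smul_eq_mul]
  rfl

theorem Pt_prob (m : Fin b → ℕ) {D : Set (Fin b → ℝ)} (hD : UBd D) :
    IsProbabilityMeasure (Pt m D) := by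
  constructor
  rw [Pt_apply m D MeasurableSet.univ, Measure.restrict_univ]
  exact ENNReal.inv_mul_cancel (Z_pos m hD) (Z_top m hD)

/-- an approximate median -/
theorem median (m : Fin b → ℕ) {D : Set (Fin b → ℝ)} (hD : UBd D) (hm : ∀ i, 2 ≤ m i)
    (i : Fin b) : ∃ M : ℝ, 0 < M ∧ 1 / 2 ≤ Pt m D {t | M ≤ t i} ∧
      1 / 2 ≤ Pt m D {t | t i ≤ 2 * M} := by
  have hP := Pt_prob m hD
  have hms : ∀ s : ℝ, MeasurableSet {t : Fin b → ℝ | s ≤ t i} := fun s =>
    measurableSet_le measurable_const (measurable_pi_apply i)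
  -- positive
  have hpos : Pt m D {t | 0 < t i} = 1 := by
    have hm1 : MeasurableSet {t : Fin b → ℝ | 0 < t i} :=
      measurableSet_lt measurable_const (measurable_pi_apply i)
    rw [← prob_compl_eq_zero_iff hm1, Pt_apply m D hm1.compl]
    have : ∫⁻ t in {t : Fin b → ℝ | 0 < t i}ᶜ, ENNReal.ofReal (wt m D t) = 0 := by
      rw [setLIntegral_eq_zero_iff hm1.compl (wt_meas m hD).ennreal_ofReal]
      refine ae_of_all _ (fun t ht => ?_)
      have h0 : ¬ 0 < t i := ht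
      by_cases h : t ∈ D ∧ ∀ i, 0 ≤ t i
      · have h1 : t i = 0 := le_antisymm (not_lt.1 h0) (h.2 i)
        rw [wt_of h.1 h.2, Finset.prod_eq_zero (Finset.mem_univ i), ENNReal.ofReal_zero]
        rw [h1]
        exact zero_pow (by have := hm i; omega)
      · rw [wt_not h, ENNReal.ofReal_zero]
    rw [this, mul_zero]
  obtain ⟨s0, hs0, hP0⟩ : ∃ s0 : ℝ, 0 < s0 ∧ 1 / 2 ≤ Pt m D {t | s0 ≤ t i} := by
    have hU : {t : Fin b → ℝ | 0 < t i} = ⋃ n : ℕ, {t | 1 / ((n : ℝ) + 1) ≤ t i} := by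
      ext t
      simp only [mem_ofPred_eq, mem_iUnion]
      constructor
      · intro h
        obtain ⟨n, hn⟩ := exists_nat_one_div_lt h
        exact ⟨n, hn.le⟩
      · rintro ⟨n, hn⟩
        have : (0:ℝ) < 1 / ((n : ℝ) + 1) := by positivity
        linarith
    have hmono : Monotone fun n : ℕ => {t : Fin b → ℝ | 1 / ((n : ℝ) + 1) ≤ t i} := by
      intro n n' h t ht
      have h1 : 1 / ((n : ℝ) + 1) ≤ t i := ht
      show 1 / ((n' : ℝ) + 1) ≤ t i
      refine le_trans ?_ h1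
      apply one_div_le_one_div_of_le (by positivity)
      have : (n : ℝ) ≤ n' := by exact_mod_cast h
      linarith
    have hlim := tendsto_measure_iUnion_atTop (μ := Pt m D) hmono
    rw [← hU, hpos] at hlim
    have hhalf : (1 / 2 : ℝ≥0∞) < 1 := by
      rw [ENNReal.div_lt_iff (by simp) (by simp)]
      norm_num
    obtain ⟨n, hn⟩ := (hlim.eventually (lt_mem_nhds hhalf)).exists
    exact ⟨1 / ((n : ℝ) + 1), by positivity, hn.le⟩
  -- doubling
  have hex : ∃ k : ℕ, Pt m D {t | 2 ^ (k + 1) * s0 ≤ t i} < 1 / 2 := by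
    obtain ⟨R, hR, hb⟩ := bdd hD
    obtain ⟨k, hk⟩ := pow_unbounded_of_one_lt (R / s0) (by norm_num : (1:ℝ) < 2)
    refine ⟨k, ?_⟩
    have hz : Pt m D {t | 2 ^ (k + 1) * s0 ≤ t i} = 0 := by
      rw [Pt_apply m D (hms _)]
      have : ∫⁻ t in {t : Fin b → ℝ | 2 ^ (k + 1) * s0 ≤ t i}, ENNReal.ofReal (wt m D t) = 0 := by
        rw [setLIntegral_eq_zero_iff (hms _) (wt_meas m hD).ennreal_ofReal]
        refine ae_of_all _ (fun t ht => ?_)
        have h0 : 2 ^ (k + 1) * s0 ≤ t i := ht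
        rw [wt_not, ENNReal.ofReal_zero]
        rintro ⟨h1, -⟩
        have h2 := (le_abs_self _).trans (hb t h1 i)
        have h3 : R < 2 ^ k * s0 := (div_lt_iff₀ hs0).1 hk
        have h4 : (2:ℝ) ^ k * s0 ≤ 2 ^ (k + 1) * s0 := by
          apply mul_le_mul_of_nonneg_right _ hs0.le
          exact pow_le_pow_right₀ (by norm_num) (by omega)
        linarith
      rw [this, mul_zero]
    rw [hz]
    simp
  classical
  set k := Nat.find hex with hk
  have hk1 := Nat.find_spec hex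
  rw [← hk] at hk1
  have hk2 : 1 / 2 ≤ Pt m D {t | 2 ^ k * s0 ≤ t i} := by
    rcases Nat.eq_zero_or_pos k with h | h
    · rw [h]; simpa using hP0
    · have h3 := Nat.find_min hex (m := k - 1) (by omega)
      rw [not_lt] at h3
      have : k - 1 + 1 = k := by omega
      rwa [this] at h3
  refine ⟨2 ^ k * s0, by positivity, hk2, ?_⟩
  have h5 : Pt m D {t | 2 ^ (k + 1) * s0 ≤ t i}ᶜ = 1 - Pt m D {t | 2 ^ (k + 1) * s0 ≤ t i} :=
    prob_compl_eq_one_sub (hms _)
  have h6 : (1 / 2 : ℝ≥0∞) ≤ Pt m D {t | 2 ^ (k + 1) * s0 ≤ t i}ᶜ := by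
    rw [h5]
    apply ENNReal.le_sub_of_add_le_left (ne_top_of_lt hk1)
    calc Pt m D {t | 2 ^ (k + 1) * s0 ≤ t i} + 1 / 2 ≤ 1 / 2 + 1 / 2 := by gcongr
      _ = 1 := ENNReal.add_halves 1
  refine h6.trans (measure_mono ?_)
  intro t ht
  have h7 : ¬ 2 ^ (k + 1) * s0 ≤ t i := ht
  show t i ≤ 2 * (2 ^ k * s0)
  rw [not_le, pow_succ] at h7
  linarith

/-- the pointwise inequality -/
theorem point (m : Fin b → ℕ) {D : Set (Fin b → ℝ)} (hD : UBd D) (i : Fin b) {M lam : ℝ}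
    (hl : 0 < lam) {x y : Fin b → ℝ} (hx : x i ≤ M) (hy : lam * M < y i) :
    wt m D x * wt m D y ≤
      (4 / lam) ^ (m i - 1) * wt m D ((1 - (1 / 2 : ℝ)) • x + (1 / 2 : ℝ) • y) ^ 2 := by
  by_cases h : (x ∈ D ∧ ∀ i, 0 ≤ x i) ∧ (y ∈ D ∧ ∀ i, 0 ≤ y i)
  swap
  · have h0 : wt m D x * wt m D y = 0 := by
      rw [not_and_or] at h
      rcases h with h | h
      · rw [wt_not h, zero_mul]
      · rw [wt_not h, mul_zero]
    rw [h0]
    have := wt_nonneg m D ((1 - (1 / 2 : ℝ)) • x + (1 / 2 : ℝ) • y)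
    positivity
  obtain ⟨⟨hxD, hx0⟩, hyD, hy0⟩ := h
  set z : Fin b → ℝ := (1 - (1 / 2 : ℝ)) • x + (1 / 2 : ℝ) • y with hz
  have hzD : z ∈ D := hD.conv hxD hyD (by norm_num) (by norm_num) (by norm_num)
  have hzi : ∀ j, z j = (x j + y j) / 2 := by
    intro j
    simp only [hz, Pi.add_apply, Pi.smul_apply, smul_eq_mul]
    ring
  have hz0 : ∀ j, 0 ≤ z j := by
    intro j
    rw [hzi]
    linarith [hx0 j, hy0 j]
  rw [wt_of hxD hx0, wt_of hyD hy0, wt_of hzD hz0, ← Finset.prod_mul_distrib]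
  have h1 : ∀ j, x j ^ (m j - 1) * y j ^ (m j - 1) ≤
      ((if j = i then 4 / lam else 1) * z j ^ 2) ^ (m j - 1) := by
    intro j
    rw [← mul_pow]
    apply pow_le_pow_left₀ (mul_nonneg (hx0 j) (hy0 j))
    split_ifs with hj
    · subst hj
      rw [hzi]
      have h2 : lam * x j ≤ y j := by nlinarith
      have h3 : x j * y j * lam ≤ y j * y j := by nlinarith [hy0 j]
      rw [div_mul_eq_mul_div, le_div_iff₀ hl]
      nlinarith [hx0 j, hy0 j, mul_nonneg (hx0 j) (hy0 j)]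
    · rw [hzi, one_mul]
      nlinarith [sq_nonneg (x j - y j)]
  refine (Finset.prod_le_prod (fun j _ => mul_nonneg (pow_nonneg (hx0 j) _)
    (pow_nonneg (hy0 j) _)) (fun j _ => h1 j)).trans (le_of_eq ?_)
  simp only [mul_pow]
  rw [Finset.prod_mul_distrib, ← Finset.prod_pow]
  congr 1
  · have : ∀ j, (if j = i then 4 / lam else 1) ^ (m j - 1) =
        if j = i then (4 / lam) ^ (m i - 1) else 1 := by
      intro j
      split_ifs with hj
      · rw [hj]
      · rw [one_pow]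
    simp only [this]
    rw [Finset.prod_ite_eq' Finset.univ i]
    simp
  · apply Finset.prod_congr rfl
    intro j _
    rw [← pow_mul, ← pow_mul, mul_comm]

theorem tail (m : Fin b → ℕ) {D : Set (Fin b → ℝ)} (hD : UBd D) (i : Fin b) {M lam : ℝ}
    (hl : 0 < lam) (hmed : 1 / 2 ≤ Pt m D {t | t i ≤ M}) :
    Pt m D {t | lam * M < t i} ≤ 2 * ENNReal.ofReal ((4 / lam) ^ (m i - 1)) := by
  have hmA : MeasurableSet {t : Fin b → ℝ | t i ≤ M} :=
    measurableSet_le (measurable_pi_apply i) measurable_const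
  have hmB : MeasurableSet {t : Fin b → ℝ | lam * M < t i} :=
    measurableSet_lt measurable_const (measurable_pi_apply i)
  set W : (Fin b → ℝ) → ℝ≥0∞ := fun t => ENNReal.ofReal (wt m D t) with hW
  have hWm : Measurable W := (wt_meas m hD).ennreal_ofReal
  set c : ℝ := Real.sqrt ((4 / lam) ^ (m i - 1)) with hc
  have hc0 : 0 ≤ c := Real.sqrt_nonneg _
  have hc2 : c ^ 2 = (4 / lam) ^ (m i - 1) := Real.sq_sqrt (by positivity)
  have hpl := Pool.Agent.H212R2.KLS.PL (F := Fin b → ℝ) volume (1 / 2) (by norm_num) (by norm_num)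
    ({t : Fin b → ℝ | t i ≤ M}.indicator W) ({t : Fin b → ℝ | lam * M < t i}.indicator W)
    (fun t => ENNReal.ofReal c * W t) (hWm.indicator hmA) (hWm.indicator hmB)
    (hWm.const_mul _) (by
      intro x y
      by_cases hx : x ∈ {t : Fin b → ℝ | t i ≤ M}
      swap
      · rw [indicator_of_notMem hx, ENNReal.zero_rpow_of_pos (by norm_num), zero_mul]
        exact zero_le
      by_cases hy : y ∈ {t : Fin b → ℝ | lam * M < t i}
      swap
      · rw [indicator_of_notMem hy, ENNReal.zero_rpow_of_pos (by norm_num), mul_zero]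
        exact zero_le
      rw [indicator_of_mem hx, indicator_of_mem hy]
      have h1 := point m hD i hl hx hy
      have h2 : Real.sqrt (wt m D x * wt m D y) ≤
          c * wt m D ((1 - (1 / 2 : ℝ)) • x + (1 / 2 : ℝ) • y) := by
        rw [Real.sqrt_le_left (mul_nonneg hc0 (wt_nonneg _ _ _)), mul_pow, hc2]
        exact h1
      have h3 : W x ^ (1 - 1 / 2 : ℝ) * W y ^ (1 / 2 : ℝ) =
          ENNReal.ofReal (Real.sqrt (wt m D x * wt m D y)) := by
        simp only [hW]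
        rw [ENNReal.ofReal_rpow_of_nonneg (wt_nonneg _ _ _) (by norm_num),
          ENNReal.ofReal_rpow_of_nonneg (wt_nonneg _ _ _) (by norm_num),
          ← ENNReal.ofReal_mul (Real.rpow_nonneg (wt_nonneg _ _ _) _),
          Real.sqrt_mul (wt_nonneg _ _ _), Real.sqrt_eq_rpow, Real.sqrt_eq_rpow]
        norm_num
      rw [h3]
      simp only [hW]
      rw [← ENNReal.ofReal_mul hc0]
      exact ENNReal.ofReal_le_ofReal h2)
  rw [lintegral_indicator hmA, lintegral_indicator hmB, lintegral_const_mul _ hWm] at hpl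
  have hZ : ∫⁻ t, W t = Z m D := rfl
  rw [hZ] at hpl
  -- square
  set a : ℝ≥0∞ := ∫⁻ t in {t : Fin b → ℝ | t i ≤ M}, W t with ha
  set b' : ℝ≥0∞ := ∫⁻ t in {t : Fin b → ℝ | lam * M < t i}, W t with hb'
  set K : ℝ≥0∞ := ENNReal.ofReal ((4 / lam) ^ (m i - 1)) with hK
  have hsq := ENNReal.rpow_le_rpow hpl (by norm_num : (0:ℝ) ≤ 2)
  have e1 : (a ^ (1 - 1 / 2 : ℝ) * b' ^ (1 / 2 : ℝ)) ^ (2 : ℝ) = a * b' := by
    rw [ENNReal.mul_rpow_of_nonneg _ _ (by norm_num), ← ENNReal.rpow_mul, ← ENNReal.rpow_mul]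
    norm_num
  have hc3 : ENNReal.ofReal c ^ (2:ℝ) = K := by
    rw [ENNReal.ofReal_rpow_of_nonneg hc0 (by norm_num), hK]
    congr 1
    rw [← hc2]
    norm_num
  rw [e1, ENNReal.mul_rpow_of_nonneg _ _ (by norm_num), hc3] at hsq
  have hZ2 : Z m D ^ (2:ℝ) = Z m D * Z m D := by
    rw [show (2:ℝ) = ((2:ℕ):ℝ) by norm_num, ENNReal.rpow_natCast, sq]
  rw [hZ2] at hsq
  have hZ0 := Z_pos m hD
  have hZt := Z_top m hD
  have hPa : Pt m D {t | t i ≤ M} = (Z m D)⁻¹ * a := Pt_apply m D hmA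
  have hPb : Pt m D {t | lam * M < t i} = (Z m D)⁻¹ * b' := Pt_apply m D hmB
  rw [hPa] at hmed
  rw [hPb]
  have hinv : (Z m D)⁻¹ * Z m D = 1 := ENNReal.inv_mul_cancel hZ0 hZt
  calc (Z m D)⁻¹ * b' = 2 * (1 / 2) * ((Z m D)⁻¹ * b') := by
        rw [ENNReal.mul_div_cancel (by norm_num) (by norm_num), one_mul]
    _ ≤ 2 * ((Z m D)⁻¹ * a) * ((Z m D)⁻¹ * b') := by gcongr
    _ = 2 * (Z m D)⁻¹ * (Z m D)⁻¹ * (a * b') := by ring
    _ ≤ 2 * (Z m D)⁻¹ * (Z m D)⁻¹ * (K * (Z m D * Z m D)) := by gcongr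
    _ = 2 * K * ((Z m D)⁻¹ * Z m D) * ((Z m D)⁻¹ * Z m D) := by ring
    _ = 2 * K := by rw [hinv, mul_one, mul_one]

/-- package BT -/
theorem t_BT : S_BT := by
  intro T ε hT hε
  set L : ℝ := max 1 (Real.log (2 / ε)) with hL
  have hL1 : 1 ≤ L := le_max_left _ _
  have hL2 : Real.log (2 / ε) ≤ L := le_max_right _ _
  have hTL : 0 < 2 * T * L := by positivity
  set lam : ℝ := 4 * Real.exp (2 * T * L) with hlam
  have hlam1 : 4 ≤ lam := by
    have := Real.one_le_exp hTL.le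
    linarith
  refine ⟨lam * 2, by linarith, ?_⟩
  intro b m D hD hm hlog i
  obtain ⟨M, hM, h1, h2⟩ := median m hD hm i
  refine ⟨M, hM, h1, ?_⟩
  have h3 := tail m hD i (lam := lam) (M := 2 * M) (by linarith) h2
  have hb0 : 0 < b := i.pos
  have hb1 : (1:ℝ) ≤ b := by exact_mod_cast hb0
  have hlb : 0 ≤ Real.log b := Real.log_nonneg hb1
  have e : lam * (2 * M) = lam * 2 * M := by ring
  rw [e] at h3
  refine h3.trans ?_
  have h4 : (2 : ℝ≥0∞) = ENNReal.ofReal 2 := by norm_num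
  rw [h4, ← ENNReal.ofReal_mul (by norm_num)]
  apply ENNReal.ofReal_le_ofReal
  have h5 : 4 / lam = Real.exp (-(2 * T * L)) := by
    rw [hlam, Real.exp_neg]
    field_simp
  rw [h5, ← Real.exp_nat_mul]
  have h6 : (2 * ((m i - 1 : ℕ) : ℝ)) ≥ m i := by
    have := hm i
    have h7 : m i ≤ 2 * (m i - 1) := by omega
    exact_mod_cast h7
  have h8 : L + Real.log b ≤ 2 * T * L * ((m i - 1 : ℕ) : ℝ) := by
    have h9 := hlog i
    have h10 : T * L * (m i : ℝ) ≤ 2 * T * L * ((m i - 1 : ℕ) : ℝ) := by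
      have : 0 < T * L := by positivity
      nlinarith
    have h11 : L * (1 + Real.log b) ≤ T * L * (m i : ℝ) := by
      have : 1 + Real.log b ≤ T * m i := by nlinarith
      nlinarith
    nlinarith
  have h12 : Real.exp (((m i - 1 : ℕ) : ℝ) * -(2 * T * L)) ≤ ε / 2 / b := by
    have h13 : Real.exp (((m i - 1 : ℕ) : ℝ) * -(2 * T * L)) ≤ Real.exp (-(L + Real.log b)) := by
      apply Real.exp_le_exp.2
      linarith
    refine h13.trans ?_
    rw [neg_add, Real.exp_add, Real.exp_neg (Real.log b), Real.exp_log (by linarith),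
      div_eq_mul_inv (ε / 2)]
    apply mul_le_mul_of_nonneg_right _ (by positivity)
    have h14 : Real.exp (-L) ≤ Real.exp (-(Real.log (2 / ε))) := by
      apply Real.exp_le_exp.2
      linarith
    refine h14.trans (le_of_eq ?_)
    rw [Real.exp_neg, Real.exp_log (by positivity)]
    field_simp
  calc 2 * Real.exp (((m i - 1 : ℕ) : ℝ) * -(2 * T * L)) ≤ 2 * (ε / 2 / b) := by gcongr
    _ = ε / b := by ring

end Pool.Agent.U312.UB
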